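import Pool.Agent.N993.WT.Stm

set_option autoImplicit false

namespace Pool.Agent.N993.WT

/-- sub-presentations -/
theorem t_sub : S_SUB := by
  intro X R r h T D hD
  refine h
    { D := D.D
      finD := D.finD
      nonemptyD := D.nonemptyD
      nxt := D.nxt
      opp := D.opp
      opp_ne := D.opp_ne
      opp_opp := D.opp_opp
      connected := D.connected
      euler := D.euler
      lett := D.lett
      lett_opp := D.lett_opp
      cell := fun d => (D.cell d : R)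
      sgn := D.sgn
      pos := D.pos
      face := D.face
      cell_nxt := fun d => congrArg Subtype.val (D.cell_nxt d)
      sgn_nxt := D.sgn_nxt
      pos_nxt := D.pos_nxt
      lett_eq := D.lett_eq } ?_
  intro d hd
  exact hD d ⟨Subtype.ext hd.1, hd.2⟩

theorem good_dat {n m : ℕ} {c : Fin m → ℕ} (hc : ∀ j, 0 < c j) (b : Fin m → Fin n × Bool)
    (a : ((j : Fin m) × Fin (c j)) → Fin n × Bool)
    {ℓ : ((j : Fin m) × Fin (c j)) → ℕ} (hℓ : ∀ t, 0 < ℓ t) (g : ∀ t, RW n (ℓ t)) :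
    (dat hc b a g).Good := by
  refine ⟨hc, hℓ, ?_, ?_⟩
  · intro j k j' k' hk hk' h
    change k < c j at hk
    change k' < c j' at hk'
    simp only [dat, Nat.mod_eq_of_lt hk, Nat.mod_eq_of_lt hk', Sigma.mk.injEq] at h
    obtain ⟨h1, h2⟩ := h
    subst h1
    rw [heq_eq_eq, Fin.mk.injEq] at h2
    exact ⟨rfl, h2⟩
  · intro s i hi
    change i + 1 < ℓ s at hi
    have h1 : i < ℓ s := by omega
    simp only [dat, hi, h1, dif_pos]
    exact (g s).2 ⟨i, h1⟩ ⟨i + 1, hi⟩ rfl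

/-- the words with good repetitions give diagrammatically reducible presentations -/
theorem dr_of_pf (hD : S_DIS) (hN : S_NORM) {n m : ℕ} {c : Fin m → ℕ} (hc : ∀ j, 0 < c j)
    (b : Fin m → Fin n × Bool) (a : ((j : Fin m) × Fin (c j)) → Fin n × Bool)
    {ℓ : ((j : Fin m) × Fin (c j)) → ℕ} (μ : ℕ) (hμ : 1 ≤ μ) (hℓ : ∀ t, 27 * (μ + 1) ≤ ℓ t)
    (g : ∀ t, RW n (ℓ t)) (hg : (dat hc b a g).PF μ) : DR (rel b a g) := by
  intro D hD'
  have h0 : ∀ t, 0 < ℓ t := fun t => lt_of_lt_of_le (by omega) (hℓ t)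
  obtain ⟨N, hE⟩ := hN n m c hc b a ℓ h0 g D hD'
  exact hD _ _ _ _ N (good_dat hc b a h0 g) μ hμ hg hℓ hE

instance (n ℓ : ℕ) : Finite (RW n ℓ) := by
  unfold RW
  infer_instance

theorem main (hD : S_DIS) (hN : S_NORM) (hC : S_CNT) {n m : ℕ} (hn : 2 ≤ n) {c : Fin m → ℕ}
    (hc : ∀ j, 0 < c j) (b : Fin m → Fin n × Bool) (a : ((j : Fin m) × Fin (c j)) → Fin n × Bool)
    (ℓ : ((j : Fin m) × Fin (c j)) → ℕ) (μ : ℕ) (hμ : 1 ≤ μ) (hℓ : ∀ t, 27 * (μ + 1) ≤ ℓ t) :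
    (Nat.card {g : ∀ t, RW n (ℓ t) // ∃ T : Set (Fin m ⊕ ((j : Fin m) × Fin (c j))),
        ¬ DR (fun e : T => rel b a g e)} : ℝ) ≤
      2 * (∑ t, (ℓ t : ℝ)) ^ 2 / (2 * n - 1) ^ μ * Nat.card (∀ t, RW n (ℓ t)) := by
  have h1 := hC n m hn c hc b a ℓ μ hμ
  have hn' : (2 : ℝ) ≤ n := by exact_mod_cast hn
  have hp : (0 : ℝ) < (2 * n - 1 : ℝ) ^ μ := pow_pos (by linarith) μ
  have h2 : (Nat.card {g : ∀ t, RW n (ℓ t) // ∃ T : Set (Fin m ⊕ ((j : Fin m) × Fin (c j))),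
      ¬ DR (fun e : T => rel b a g e)} : ℝ) ≤
      Nat.card {g : ∀ t, RW n (ℓ t) // ¬ (dat hc b a g).PF μ} := by
    rw [Nat.cast_le]
    refine Nat.card_le_card_of_injective
      (fun x => ⟨x.1, fun hg => ?_⟩) ?_
    · obtain ⟨T, hT⟩ := x.2
      exact hT (t_sub _ _ _ (dr_of_pf hD hN hc b a μ hμ hℓ x.1 hg) T)
    · intro x y hxy
      simp only [Subtype.mk.injEq] at hxy
      exact Subtype.ext hxy
  refine h2.trans ?_
  rw [div_mul_eq_mul_div, le_div_iff₀ hp]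
  exact h1

end Pool.Agent.N993.WT
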