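import Mathlib

set_option autoImplicit false

/-!
Spherical diagrams over presentations by words, diagrammatic reducibility, and the presentations
`x_b ∏ s_k x_(a_k) s_k⁻¹`, `s_k⁻¹ g_k` (products of conjugates).
-/

namespace Pool.Agent.N993.WT

/-- the inverse of a letter; `(x, true)` is the generator `x` and `(x, false)` its inverse -/
def flip {X : Type} (y : X × Bool) : X × Bool := (y.1, !y.2)

/-- A spherical diagram over the presentation with generators `X` and relators the words `r e`
(`e : R`): a cell structure of the sphere in which every directed edge has a letter and the boundary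
of every face, read from a base point in one of the two directions, is a relator.

The cell structure is given by its directed edges `D`: `opp d` is the same edge in the opposite
direction, `nxt d` is the directed edge which follows `d` on the boundary of the face to the left of
`d`. The edges are the orbits of `opp`, the faces are the orbits of `nxt`, the vertices are the
orbits of `opp ∘ nxt⁻¹` (the rotation around the starting point of a directed edge); the surface is
connected and its Euler characteristic is two.

The letter read along `d` is `lett d`. The face to the left of `d` is labelled by the relator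
`cell d`, read forwards if `sgn d = true` and backwards (its inverse) if `sgn d = false`; `d` is its
side number `pos d`. -/
structure SphericalDiagram {X R : Type} (r : R → List (X × Bool)) where
  D : Type
  finD : Finite D
  nonemptyD : Nonempty D
  nxt : Equiv.Perm D
  opp : Equiv.Perm D
  opp_ne : ∀ d, opp d ≠ d
  opp_opp : ∀ d, opp (opp d) = d
  connected : ∀ d d' : D, Relation.ReflTransGen (fun x y => y = nxt x ∨ y = opp x) d d'
  euler : Nat.card (Quot fun x y : D => y = opp (nxt.symm x)) +
      Nat.card (Quot fun x y : D => y = nxt x) = Nat.card (Quot fun x y : D => y = opp x) + 2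
  lett : D → X × Bool
  lett_opp : ∀ d, lett (opp d) = flip (lett d)
  cell : D → R
  sgn : D → Bool
  pos : D → ℕ
  face : ∀ d, (nxt ^ (r (cell d)).length) d = d
  cell_nxt : ∀ d, cell (nxt d) = cell d
  sgn_nxt : ∀ d, sgn (nxt d) = sgn d
  pos_nxt : ∀ d, pos (nxt d) = if sgn d then (if pos d + 1 = (r (cell d)).length then 0 else pos d + 1)
    else (if pos d = 0 then (r (cell d)).length - 1 else pos d - 1)
  lett_eq : ∀ d, (r (cell d))[pos d]? = some (if sgn d then lett d else flip (lett d))

/-- The diagram is reduced: no two faces with a common edge are mirror images of each other with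
respect to this edge (labelled by the same relator, which is read in opposite directions, and the
edge is the same side of the relator in both). -/
def SphericalDiagram.Reduced {X R : Type} {r : R → List (X × Bool)} (S : SphericalDiagram r) :
    Prop := ∀ d, ¬ (S.cell (S.opp d) = S.cell d ∧ S.pos (S.opp d) = S.pos d ∧
      S.sgn (S.opp d) ≠ S.sgn d)

/-- The presentation (its presentation 2-complex) is diagrammatically reducible: there is no reduced
spherical diagram. -/
def DR {X R : Type} (r : R → List (X × Bool)) : Prop := ∀ S : SphericalDiagram r, ¬ S.Reduced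

/-- reduced words of length `ℓ` in the generators `0, …, n-1` and their inverses -/
def RW (n ℓ : ℕ) : Type :=
  {w : Fin ℓ → Fin n × Bool // ∀ i j : Fin ℓ, (j : ℕ) = i + 1 → w j ≠ flip (w i)}

/-- The generators: `x_0, …, x_(n-1)` (`Sum.inl`) and one letter `s_t` for every index
`t = (j, k)`, `j < m`, `k < c j` (`Sum.inr`). -/
abbrev Gen (n : ℕ) {m : ℕ} (c : Fin m → ℕ) : Type := Fin n ⊕ ((j : Fin m) × Fin (c j))

/-- The relators. The relator `Sum.inl j` is the word
`x_b ∏ (k < c j) s_(j,k) x_(a (j,k)) s_(j,k)⁻¹` (with given exponents `±1` of `x_b`, `x_a`, where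
`x_b^±1 = b j`), and the relator `Sum.inr t` is `s_t⁻¹ g_t`: so `x_b^±1` times the product of the
conjugates of `x_(a (j,k))^±1` by `g_(j,k)` is made trivial. -/
def rel {n m : ℕ} {c : Fin m → ℕ} (b : Fin m → Fin n × Bool)
    (a : ((j : Fin m) × Fin (c j)) → Fin n × Bool)
    {ℓ : ((j : Fin m) × Fin (c j)) → ℕ} (g : ∀ t, RW n (ℓ t)) :
    Fin m ⊕ ((j : Fin m) × Fin (c j)) → List (Gen n c × Bool)
  | Sum.inl j => (Sum.inl (b j).1, (b j).2) :: (List.ofFn fun k : Fin (c j) =>
      [(Sum.inr ⟨j, k⟩, true), (Sum.inl (a ⟨j, k⟩).1, (a ⟨j, k⟩).2), (Sum.inr ⟨j, k⟩, false)]).flatten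
  | Sum.inr t => (Sum.inr t, false) :: List.ofFn fun i => (Sum.inl ((g t).1 i).1, ((g t).1 i).2)

/-- the element of the free group given by a word -/
def word {X : Type} (w : List (X × Bool)) : FreeGroup X := FreeGroup.mk w

/-! ### internal notions -/

/-- data of the internal form -/
structure Dat (V J S : Type) where
  c : J → ℕ
  st : J → ℕ → S
  ℓ : S → ℕ
  b : J → V × Bool
  a : S → V × Bool
  g : S → ℕ → V × Bool

/-- The sides of the oriented 2-cells (`τ = true`: read forwards, `τ = false`: backwards).
Polygon `j`: `base j τ`, then `up j τ k`, `mid j τ k`, `dn j τ k` for `k = 0, …, c j - 1` in the order in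
which they are read; roof `s`: `st s τ` and then `lt s τ i`, `i = 0, …, ℓ s - 1` in the order in which
they are read. -/
inductive Side (J S : Type) where
  | base (j : J) (τ : Bool)
  | up (j : J) (τ : Bool) (k : ℕ)
  | mid (j : J) (τ : Bool) (k : ℕ)
  | dn (j : J) (τ : Bool) (k : ℕ)
  | st (s : S) (τ : Bool)
  | lt (s : S) (τ : Bool) (i : ℕ)

namespace Dat

variable {V J S : Type} (A : Dat V J S)

/-- the `k`-th stable letter of the polygon `j` read in direction `τ` -/
def kap (j : J) (τ : Bool) (k : ℕ) : S := A.st j (if τ then k else A.c j - 1 - k)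

/-- the `i`-th letter of the word `g s` (`τ = true`) or of its inverse (`τ = false`) -/
def wd (s : S) (τ : Bool) (i : ℕ) : V × Bool := if τ then A.g s i else flip (A.g s (A.ℓ s - 1 - i))

/-- next side -/
def nx : Side J S → Side J S
  | .base j τ => .up j τ 0
  | .up j τ k => .mid j τ k
  | .mid j τ k => .dn j τ k
  | .dn j τ k => if k + 1 < A.c j then .up j τ (k + 1) else .base j τ
  | .st s τ => .lt s τ 0
  | .lt s τ i => if i + 1 < A.ℓ s then .lt s τ (i + 1) else .st s τ

/-- the letter read along a side -/
def letter : Side J S → (V ⊕ S) × Bool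
  | .base j τ => (Sum.inl (A.b j).1, (A.b j).2 == τ)
  | .up j τ k => (Sum.inr (A.kap j τ k), true)
  | .mid j τ k => (Sum.inl (A.a (A.kap j τ k)).1, (A.a (A.kap j τ k)).2 == τ)
  | .dn j τ k => (Sum.inr (A.kap j τ k), false)
  | .st s τ => (Sum.inr s, !τ)
  | .lt s τ i => (Sum.inl (A.wd s τ i).1, (A.wd s τ i).2)

/-- the same side of the same 2-cell, read in the opposite direction -/
def mirror : Side J S → Side J S
  | .base j τ => .base j (!τ)
  | .up j τ k => .dn j (!τ) (A.c j - 1 - k)
  | .mid j τ k => .mid j (!τ) (A.c j - 1 - k)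
  | .dn j τ k => .up j (!τ) (A.c j - 1 - k)
  | .st s τ => .st s (!τ)
  | .lt s τ i => .lt s (!τ) (A.ℓ s - 1 - i)

/-- admissible indices -/
def Valid : Side J S → Prop
  | .base _ _ => True
  | .up j _ k => k < A.c j
  | .mid j _ k => k < A.c j
  | .dn j _ k => k < A.c j
  | .st _ _ => True
  | .lt s _ i => i < A.ℓ s

/-- basic hypotheses -/
structure Good : Prop where
  c_pos : ∀ j, 0 < A.c j
  ℓ_pos : ∀ s, 0 < A.ℓ s
  st_inj : ∀ j k j' k', k < A.c j → k' < A.c j' → A.st j k = A.st j' k' → j = j' ∧ k = k'
  red : ∀ s i, i + 1 < A.ℓ s → A.g s (i + 1) ≠ flip (A.g s i)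

/-- no two different places of the words `g s` and their inverses have the same subwords of
length `μ` -/
def PF (μ : ℕ) : Prop := ∀ s τ i s' τ' i', i + μ ≤ A.ℓ s → i' + μ ≤ A.ℓ s' →
  (s, τ, i) ≠ (s', τ', i') → ∃ t < μ, A.wd s τ (i + t) ≠ A.wd s' τ' (i' + t)

end Dat

/-- sides labelled by a generator `x` -/
def IsX {J S : Type} : Side J S → Prop
  | .base _ _ => True
  | .mid _ _ _ => True
  | .lt _ _ _ => True
  | _ => False

/-- the side of a roof labelled by a stable letter -/
def IsSt {J S : Type} : Side J S → Prop
  | .st _ _ => True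
  | _ => False

/-- the base side of a polygon -/
def IsBase {J S : Type} : Side J S → Prop
  | .base _ _ => True
  | _ => False

/-- sides of polygons labelled by a generator `x` -/
def IsQ {J S : Type} : Side J S → Prop
  | .base _ _ => True
  | .mid _ _ _ => True
  | _ => False

/-- a reduced spherical diagram in internal form -/
structure ND {V J S : Type} (A : Dat V J S) where
  D : Type
  finD : Finite D
  nxt : Equiv.Perm D
  opp : Equiv.Perm D
  opp_opp : ∀ d, opp (opp d) = d
  ty : D → Side J S
  valid : ∀ d, A.Valid (ty d)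
  ty_nxt : ∀ d, ty (nxt d) = A.nx (ty d)
  letter_opp : ∀ d, A.letter (ty (opp d)) = flip (A.letter (ty d))
  red : ∀ d, ty (opp d) ≠ A.mirror (ty d)

namespace ND

variable {V J S : Type} {A : Dat V J S} (N : ND A)

/-- rotation around the starting point -/
def σ : Equiv.Perm N.D := N.nxt.symm.trans N.opp

/-- the vertices -/
def Vtx : Type := Quotient (Equiv.Perm.SameCycle.setoid N.σ)

/-- the Euler characteristic is (at least) two: `2V + 2F = 2E + 4`; every face has exactly one side
of type `base` or `st` -/
def Euler : Prop := Nat.card N.D + 4 ≤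
  2 * Nat.card N.Vtx + 2 * Nat.card {d : N.D // IsBase (N.ty d) ∨ IsSt (N.ty d)}

/-- there is a third `x`-dart at the starting point of `d`, besides `d` and `σ d` -/
def BR (d : N.D) : Prop := ∃ y, IsX (N.ty y) ∧ N.σ.SameCycle d y ∧ y ≠ d ∧ y ≠ N.σ d

end ND

end Pool.Agent.N993.WT
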