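import Pool.Agent.N993.WT.Asm
import Pool.Agent.N862.WT.DOWN
import Pool.Agent.N80.WT.DEG
import Pool.Agent.N545.WT.CH
import Pool.Agent.N216.WT.WIN
import Pool.Agent.N78.WT.DIS
import Pool.Agent.N592.WT.NORM
import Pool.Agent.N42.WT.CNT
import Pool.Agent.N434.WT.TRIV

set_option autoImplicit false

namespace Pool.Agent.N993.WT

theorem s_deg : S_DEG := Pool.Agent.N80.WT.DEG.t_deg Pool.Agent.N862.WT.t_down

theorem s_dis : S_DIS :=
  Pool.Agent.N78.WT.t_dis s_deg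
    (Pool.Agent.N216.WT.t_win s_deg (Pool.Agent.N545.WT.t_ch Pool.Agent.N862.WT.t_down))

theorem s_norm : S_NORM := Pool.Agent.N592.WTN.t_norm

theorem s_cnt : S_CNT := Pool.Agent.N42.WT.t_cnt

theorem s_triv : S_TRIV := Pool.Agent.N434.WTT.t_TRIV

theorem pf_indep {n m : ℕ} {c : Fin m → ℕ} (hc : ∀ j, 0 < c j) (b b' : Fin m → Fin n × Bool)
    (a a' : ((j : Fin m) × Fin (c j)) → Fin n × Bool)
    {ℓ : ((j : Fin m) × Fin (c j)) → ℕ} (g : ∀ t, RW n (ℓ t)) (μ : ℕ)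
    (h : (dat hc b a g).PF μ) : (dat hc b' a' g).PF μ := by
  have hw : ∀ s τ i, i < ℓ s → (dat hc b a g).wd s τ i = (dat hc b' a' g).wd s τ i := by
    intro s τ i hi
    have h1 : ℓ s - 1 - i < ℓ s := by omega
    cases τ <;> simp [Dat.wd, dat, hi, h1]
  intro s τ i s' τ' i' h1 h2 h3
  obtain ⟨t, ht, h4⟩ := h s τ i s' τ' i' h1 h2 h3
  refine ⟨t, ht, ?_⟩
  change i + μ ≤ ℓ s at h1
  change i' + μ ≤ ℓ s' at h2
  rwa [← hw _ _ _ (by omega), ← hw _ _ _ (by omega)]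

theorem almost_all {n m : ℕ} (hn : 2 ≤ n) {c : Fin m → ℕ}
    (hc : ∀ j, 0 < c j) (ℓ : ((j : Fin m) × Fin (c j)) → ℕ) (μ : ℕ) (hμ : 1 ≤ μ)
    (hℓ : ∀ t, 27 * (μ + 1) ≤ ℓ t) :
    (Nat.card {g : ∀ t, RW n (ℓ t) // ∃ (b : Fin m → Fin n × Bool)
        (a : ((j : Fin m) × Fin (c j)) → Fin n × Bool) (T : Set (Fin m ⊕ ((j : Fin m) × Fin (c j)))),
        ¬ DR (fun e : T => rel b a g e)} : ℝ) ≤
      2 * (∑ t, (ℓ t : ℝ)) ^ 2 / (2 * n - 1) ^ μ * Nat.card (∀ t, RW n (ℓ t)) := by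
  have hn0 : 0 < n := by omega
  set b₀ : Fin m → Fin n × Bool := fun _ => (⟨0, hn0⟩, true) with hb₀
  set a₀ : ((j : Fin m) × Fin (c j)) → Fin n × Bool := fun _ => (⟨0, hn0⟩, true) with ha₀
  have h1 := s_cnt n m hn c hc b₀ a₀ ℓ μ hμ
  have hn' : (2 : ℝ) ≤ n := by exact_mod_cast hn
  have hp : (0 : ℝ) < (2 * n - 1 : ℝ) ^ μ := pow_pos (by linarith) μ
  have h2 : (Nat.card {g : ∀ t, RW n (ℓ t) // ∃ (b : Fin m → Fin n × Bool)
        (a : ((j : Fin m) × Fin (c j)) → Fin n × Bool) (T : Set (Fin m ⊕ ((j : Fin m) × Fin (c j)))),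
        ¬ DR (fun e : T => rel b a g e)} : ℝ) ≤
      Nat.card {g : ∀ t, RW n (ℓ t) // ¬ (dat hc b₀ a₀ g).PF μ} := by
    rw [Nat.cast_le]
    refine Nat.card_le_card_of_injective (fun x => ⟨x.1, fun hg => ?_⟩) ?_
    · obtain ⟨b, a, T, hT⟩ := x.2
      exact hT (t_sub _ _ _ (dr_of_pf s_dis s_norm hc b a μ hμ hℓ x.1
        (pf_indep hc b₀ b a₀ a x.1 μ hg)) T)
    · intro x y hxy
      simp only [Subtype.mk.injEq] at hxy
      exact Subtype.ext hxy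
  refine h2.trans ?_
  rw [div_mul_eq_mul_div, le_div_iff₀ hp]
  exact h1

end Pool.Agent.N993.WT
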