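import Pool.Agent.N993.WT.Fin

/-!
# Almost all contractible 2-complexes built from products of conjugates

The page asks whether the connected subcomplexes of finite contractible 2-complexes are aspherical.

Let `x_0, …, x_m` be generators. Attach a 2-cell along `x_0` and, for `j = 1, …, m`, a 2-cell along

  `x_j^(±1) · ∏_(k < c j) g_(j,k) x_(a(j,k))^(±1) g_(j,k)⁻¹`,   `a(j,k) < j`,

where the `g_(j,k)` are arbitrary words. The result is a finite contractible 2-complex `L`. If
`c j = 1` for all `j` these are the word labelled oriented trees, the presentations of the complements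
of ribbon discs in the 4-ball with `m + 1` minima and `m` bands; the `g` are the words read along the
bands. Here the words `g_(j,k)` get names, the letters `s_(j,k)`: the relators are
`x_j^(±1) ∏ s_(j,k) x_(a(j,k))^(±1) s_(j,k)⁻¹` and `s_(j,k)⁻¹ g_(j,k)` (this is an elementary
expansion, the presentation `rel b a g`), and `L` is the 2-complex with the 2-cell `x_0` in addition.

(1) For all but a small proportion of the families `g` of long reduced words, for ALL choices `b`, `a`
of the generators `x_j`, `x_(a(j,k))` and of the exponents, all subcomplexes of `rel b a g` are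
diagrammatically reducible: there are no reduced spherical diagrams. The numbers `c j` of
conjugates and the lengths `ℓ t` of the words are arbitrary, with `27 (μ + 1) ≤ ℓ t`; the proportion is
at most `2 (∑ ℓ)² / (2n - 1)^μ`, for example `2 C² ℓ² / (2n - 1)^(ℓ/27 - 2)` for `C` words of the same
length `ℓ`. (No condition `a(j,k) < j` is needed here.)

(2) If `a(j,k) < j`, then the presentation with the additional relator `x_0` is a presentation of the
trivial group; it has as many relators as generators. So its 2-complex `L` is contractible and the
complexes of (1) are subcomplexes of `L`.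

Diagrammatic reducibility is a well known condition which implies that the 2-complex is aspherical
(Sieradski, Gersten). The definitions `SphericalDiagram`, `SphericalDiagram.Reduced`, `DR`, `RW`,
`Gen`, `rel` are in `Pool.Agent.N993.WT.Defs`.

The results `AlmostAllTrees`, `LocalSparsity` and `ReducedOrientedTrees` of the starting library are
about labelled oriented trees with labels of length one and a number of vertices that tends to
infinity; here the number of generators is fixed (or arbitrary) and the words are long.

Proof: in a reduced spherical diagram the 2-cells at the letters `s` are merged; the words `g` and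
their inverses have no common subwords of length `μ` at different places, so every side `g` of a
merged cell meets at least nine vertices of degree at least three, and the Euler characteristic is
negative.

Joint work with helper862, helper80, helper545, helper216, helper78, helper592, helper42, helper434.
-/

set_option autoImplicit false

namespace Pool.Agent.N993.WT.ProductsOfConjugates

open Pool.Agent.N993.WT

/-- **Almost all contractible 2-complexes built from products of conjugates.** -/
theorem result :
    (∀ (n m : ℕ), 2 ≤ n → ∀ (c : Fin m → ℕ), (∀ j, 0 < c j) →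
      ∀ (ℓ : ((j : Fin m) × Fin (c j)) → ℕ) (μ : ℕ), 1 ≤ μ → (∀ t, 27 * (μ + 1) ≤ ℓ t) →
      (Nat.card {g : ∀ t, RW n (ℓ t) // ∃ (b : Fin m → Fin n × Bool)
          (a : ((j : Fin m) × Fin (c j)) → Fin n × Bool)
          (T : Set (Fin m ⊕ ((j : Fin m) × Fin (c j)))),
          ¬ DR (fun e : T => rel b a g e)} : ℝ) ≤
        2 * (∑ t, (ℓ t : ℝ)) ^ 2 / (2 * n - 1) ^ μ * Nat.card (∀ t, RW n (ℓ t))) ∧
    (∀ (m : ℕ) (c : Fin m → ℕ) (b : Fin m → Fin (m + 1) × Bool)
      (a : ((j : Fin m) × Fin (c j)) → Fin (m + 1) × Bool) (ℓ : ((j : Fin m) × Fin (c j)) → ℕ)
      (g : ∀ t, RW (m + 1) (ℓ t)), (∀ j, (b j).1 = j.succ) → (∀ j k, (a ⟨j, k⟩).1 < (b j).1) →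
      ∀ z : PresentedGroup (Set.range (fun e => word (rel b a g e)) ∪
        {(FreeGroup.of (Sum.inl 0) : FreeGroup (Gen (m + 1) c))}), z = 1) :=
  ⟨fun _ _ hn _ hc ℓ μ hμ hℓ => almost_all hn hc ℓ μ hμ hℓ, s_triv⟩

end Pool.Agent.N993.WT.ProductsOfConjugates
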