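import Pool.Agent.N993.WT.Defs

set_option autoImplicit false

namespace Pool.Agent.N993.WT

/-- rotating around a vertex from a side `up j τ k` -/
def S_DOWN : Prop := ∀ (V J S : Type) (A : Dat V J S) (N : ND A), A.Good → ∀ (j : J) (τ : Bool) (k : ℕ)
  (d : N.D), N.ty d = .up j τ k → ∃ r : ℕ, (∀ i ≤ r, ¬ IsX (N.ty ((N.σ ^ i) d))) ∧
    IsX (N.ty ((N.σ ^ (r + 1)) d)) ∧
    (N.ty (N.opp ((N.σ ^ (r + 1)) d)) = .base j τ ∨
      (IsSt (N.ty ((N.σ ^ r) d)) ∧ ∃ s τ' i, N.ty (N.opp ((N.σ ^ (r + 1)) d)) = .lt s τ' i))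

/-- every vertex has an `x`-dart; if it has only one then a roof has its stable side there -/
def S_DEG : Prop := ∀ (V J S : Type) (A : Dat V J S) (N : ND A), A.Good →
  (∀ d : N.D, ∃ y, N.σ.SameCycle d y ∧ IsX (N.ty y)) ∧
  (∀ a : N.D, IsX (N.ty a) → (∀ y, N.σ.SameCycle a y → IsX (N.ty y) → y = a) →
    ∃ d, IsSt (N.ty d) ∧ (N.σ.SameCycle a d ∨ N.σ.SameCycle a (N.nxt d))) ∧
  (∀ d : N.D, ∀ s τ i, N.ty d = .lt s τ (i + 1) → N.σ d ≠ d ∧ IsX (N.ty (N.σ d)))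

/-- consecutive `x`-sides of polygons on the other side of a path have the same letter -/
def S_CH : Prop := ∀ (V J S : Type) (A : Dat V J S) (N : ND A), A.Good → ∀ (d : N.D) (r : ℕ),
  IsX (N.ty d) → (∀ i, 0 < i → i ≤ r → ¬ IsX (N.ty ((N.σ ^ i) d))) → IsX (N.ty ((N.σ ^ (r + 1)) d)) →
  IsQ (N.ty d) → IsQ (N.ty (N.opp ((N.σ ^ (r + 1)) d))) →
  A.letter (N.ty (N.opp ((N.σ ^ (r + 1)) d))) = A.letter (N.ty d)

/-- the window lemma -/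
def S_WIN : Prop := ∀ (V J S : Type) (A : Dat V J S) (N : ND A), A.Good → ∀ μ : ℕ, 1 ≤ μ → A.PF μ →
  (∀ s, μ ≤ A.ℓ s) → ∀ (d : N.D) (s : S) (τ : Bool) (i : ℕ), N.ty d = .lt s τ i →
    i + 3 * (μ + 1) ≤ A.ℓ s → ∃ k, 1 ≤ k ∧ k < 3 * (μ + 1) ∧ N.BR ((N.nxt ^ k) d)

/-- discharging: no reduced spherical diagrams in internal form -/
def S_DIS : Prop := ∀ (V J S : Type) (A : Dat V J S) (N : ND A), A.Good → ∀ μ : ℕ, 1 ≤ μ → A.PF μ →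
  (∀ s, 27 * (μ + 1) ≤ A.ℓ s) → ¬ N.Euler

/-- the internal data of a family of words -/
noncomputable def dat {n m : ℕ} {c : Fin m → ℕ} (hc : ∀ j, 0 < c j) (b : Fin m → Fin n × Bool)
    (a : ((j : Fin m) × Fin (c j)) → Fin n × Bool)
    {ℓ : ((j : Fin m) × Fin (c j)) → ℕ} (g : ∀ t, RW n (ℓ t)) :
    Dat (Fin n) (Fin m) ((j : Fin m) × Fin (c j)) where
  c := c
  st := fun j k => ⟨j, ⟨k % c j, Nat.mod_lt _ (hc j)⟩⟩
  ℓ := ℓ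
  b := b
  a := a
  g := fun t i => if h : i < ℓ t then (g t).1 ⟨i, h⟩ else b t.1

/-- from reduced spherical diagrams to the internal form -/
def S_NORM : Prop := ∀ (n m : ℕ) (c : Fin m → ℕ) (hc : ∀ j, 0 < c j) (b : Fin m → Fin n × Bool)
  (a : ((j : Fin m) × Fin (c j)) → Fin n × Bool) (ℓ : ((j : Fin m) × Fin (c j)) → ℕ)
  (_ : ∀ t, 0 < ℓ t) (g : ∀ t, RW n (ℓ t)) (D : SphericalDiagram (rel b a g)), D.Reduced →
    ∃ N : ND (dat hc b a g), N.Euler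

/-- words with repetitions are rare -/
def S_CNT : Prop := ∀ (n m : ℕ), 2 ≤ n → ∀ (c : Fin m → ℕ) (hc : ∀ j, 0 < c j)
  (b : Fin m → Fin n × Bool) (a : ((j : Fin m) × Fin (c j)) → Fin n × Bool)
  (ℓ : ((j : Fin m) × Fin (c j)) → ℕ) (μ : ℕ), 1 ≤ μ →
  (Nat.card {g : ∀ t, RW n (ℓ t) // ¬ (dat hc b a g).PF μ} : ℝ) * (2 * n - 1 : ℝ) ^ μ ≤
    2 * (∑ t, (ℓ t : ℝ)) ^ 2 * Nat.card (∀ t, RW n (ℓ t))

/-- killing `x_0` -/
def S_TRIV : Prop := ∀ (m : ℕ) (c : Fin m → ℕ) (b : Fin m → Fin (m + 1) × Bool)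
  (a : ((j : Fin m) × Fin (c j)) → Fin (m + 1) × Bool) (ℓ : ((j : Fin m) × Fin (c j)) → ℕ)
  (g : ∀ t, RW (m + 1) (ℓ t)), (∀ j, (b j).1 = j.succ) → (∀ j k, (a ⟨j, k⟩).1 < (b j).1) →
  ∀ z : PresentedGroup (Set.range (fun e => word (rel b a g e)) ∪
    {(FreeGroup.of (Sum.inl 0) : FreeGroup (Gen (m + 1) c))}), z = 1

/-- sub-presentations -/
def S_SUB : Prop := ∀ (X R : Type) (r : R → List (X × Bool)), DR r → ∀ T : Set R,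
  DR (fun e : T => r e)

end Pool.Agent.N993.WT
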